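import Mathlib

/-!
# The large inductive dimension of strongly paracompact products

If `X × Y` is a normal (Hausdorff) strongly paracompact space and both factors satisfy the finite
sum theorem for `Ind`, then `Ind (X × Y) ≤ Ind X + Ind Y`.

The proof works with the class of closed sets `S` of `X × Y` that are locally contained in finite
unions of closed rectangles `F × H` with `Ind F + Ind H ≤ k`. By the finite sum theorem in the
factors, rectangles with the same pair of dimensions can be merged into one, and rectangles with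
different pairs meet in rectangles whose total dimension is at most `k - 1`.
-/

set_option autoImplicit false

namespace Pool.Agent.Results.MP_bd525c_gt.IndProductSP

open Set Topology

universe u

/-- `IndLT n X` says `Ind X < n`, that is `Ind X ≤ n - 1`: the space `X` has `Ind X ≤ -1` iff it
is empty, and `Ind X ≤ n` iff for every closed `A` and every open `U ⊇ A` there is an open `V`
with `A ⊆ V ⊆ closure V ⊆ U` and `Ind (frontier V) ≤ n - 1`. -/
def IndLT : ℕ → (X : Type u) → [TopologicalSpace X] → Prop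
  | 0, X, _ => IsEmpty X
  | n + 1, X, _ => ∀ A U : Set X, IsClosed A → IsOpen U → A ⊆ U →
      ∃ V : Set X, IsOpen V ∧ A ⊆ V ∧ closure V ⊆ U ∧ IndLT n (frontier V)

open Classical in
/-- The large inductive dimension, with values in `{-1, 0, 1, 2, …, ∞}`: if `k` is the least
natural number with `Ind X < k`, then `Ind X = k - 1`; if there is no such `k`, then
`Ind X = ∞`. -/
noncomputable def Ind (X : Type u) [TopologicalSpace X] : WithTop ℤ :=
  if h : ∃ k : ℕ, IndLT k X then ((((Nat.find h : ℕ) : ℤ) - 1 : ℤ) : WithTop ℤ) else ⊤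

/-- `X` satisfies the finite sum theorem for `Ind`: for every nonempty finite family
`F 0, …, F n` of closed subsets of `X`, `Ind (⋃ i, F i) ≤ max_i Ind (F i)`. -/
def FiniteSumTheorem (X : Type u) [TopologicalSpace X] : Prop :=
  ∀ (n : ℕ) (F : Fin (n + 1) → Set X), (∀ i, IsClosed (F i)) →
    Ind (⋃ i, F i : Set X) ≤ Finset.univ.sup' Finset.univ_nonempty (fun i => Ind (F i))

/-- Strong paracompactness: every open cover `𝒰` has a star-finite open refinement `𝒱`, that is,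
every member of `𝒱` meets only finitely many members of `𝒱`. -/
def StronglyParacompact (X : Type u) [TopologicalSpace X] : Prop :=
  ∀ 𝒰 : Set (Set X), (∀ U ∈ 𝒰, IsOpen U) → ⋃₀ 𝒰 = univ →
    ∃ 𝒱 : Set (Set X), (∀ V ∈ 𝒱, IsOpen V) ∧ ⋃₀ 𝒱 = univ ∧ (∀ V ∈ 𝒱, ∃ U ∈ 𝒰, V ⊆ U) ∧
      ∀ V ∈ 𝒱, {W ∈ 𝒱 | (V ∩ W).Nonempty}.Finite

/-! ### Basic facts on `Ind` -/

theorem IndLT.of_isClosedEmbedding (n : ℕ) : ∀ {X Y : Type u} [TopologicalSpace X]
    [TopologicalSpace Y] {f : X → Y}, IsClosedEmbedding f → IndLT n Y → IndLT n X := by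
  induction n with
  | zero =>
    intro X Y _ _ f _ hY
    exact ⟨fun x => hY.false (f x)⟩
  | succ n ih =>
    intro X Y _ _ f hf hY A U hA hU hAU
    obtain ⟨U', hU', rfl⟩ := hf.isInducing.isOpen_iff.1 hU
    obtain ⟨V, hV, hAV, hVU, hfr⟩ := hY (f '' A) U' (hf.isClosedMap A hA) hU'
      (image_subset_iff.2 hAU)
    refine ⟨f ⁻¹' V, hV.preimage hf.continuous, image_subset_iff.1 hAV, ?_, ?_⟩
    · exact (hf.continuous.closure_preimage_subset V).trans (preimage_mono hVU)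
    · have h1 : frontier (f ⁻¹' V) ⊆ f ⁻¹' (frontier V) := by
        rw [(hV.preimage hf.continuous).frontier_eq, hV.frontier_eq]
        intro x hx
        exact ⟨hf.continuous.closure_preimage_subset V hx.1, hx.2⟩
      have h2 : IsClosedEmbedding (fun x : frontier (f ⁻¹' V) => (⟨f x, h1 x.2⟩ : frontier V)) := by
        have h3 : IsClosedEmbedding (fun x : frontier (f ⁻¹' V) => f x) :=
          hf.comp isClosed_frontier.isClosedEmbedding_subtypeVal
        exact IsClosedEmbedding.of_comp (g := Subtype.val) IsEmbedding.subtypeVal h3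
      exact ih h2 hfr

theorem IndLT.mono_set {n : ℕ} {X : Type u} [TopologicalSpace X] {S T : Set X} (hS : IsClosed S)
    (hST : S ⊆ T) (h : IndLT n T) : IndLT n S := by
  refine IndLT.of_isClosedEmbedding n (f := Set.inclusion hST) ?_ h
  refine ⟨Topology.IsEmbedding.inclusion hST, ?_⟩
  rw [range_inclusion]
  exact hS.preimage continuous_subtype_val

theorem IndLT.succ {n : ℕ} : ∀ {X : Type u} [TopologicalSpace X], IndLT n X → IndLT (n + 1) X := by
  induction n with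
  | zero =>
    intro X _ h A U _ _ _
    refine ⟨∅, isOpen_empty, fun x _ => (h.false x).elim, fun x _ => (h.false x).elim, ?_⟩
    exact ⟨fun x => h.false x.1⟩
  | succ n ih =>
    intro X _ h A U hA hU hAU
    obtain ⟨V, h1, h2, h3, h4⟩ := h A U hA hU hAU
    exact ⟨V, h1, h2, h3, ih h4⟩

theorem IndLT.mono {n m : ℕ} (h : n ≤ m) {X : Type u} [TopologicalSpace X] (hX : IndLT n X) :
    IndLT m X := by
  induction h with
  | refl => exact hX
  | step _ ih => exact ih.succ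

/-- `Ind X ≤ n - 1` in the sense of the relation `IndLT` and of the value `Ind`. -/
theorem ind_lt_iff (n : ℕ) (X : Type u) [TopologicalSpace X] :
    Ind X < ((n : ℤ) : WithTop ℤ) ↔ IndLT n X := by
  classical
  unfold Ind
  by_cases h : ∃ k : ℕ, IndLT k X
  · rw [dif_pos h, WithTop.coe_lt_coe]
    constructor
    · intro hlt
      exact IndLT.mono (by omega) (Nat.find_spec h)
    · intro hn
      have := Nat.find_min' h hn
      omega
  · rw [dif_neg h]
    constructor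
    · intro hlt
      exact absurd hlt not_top_lt
    · intro hn
      exact absurd ⟨n, hn⟩ h

theorem IndLT.empty (n : ℕ) {X : Type u} [TopologicalSpace X] : IndLT n (∅ : Set X) :=
  IndLT.mono (Nat.zero_le n) (show IndLT 0 (∅ : Set X) from ⟨fun x => x.2⟩)

theorem FiniteSumTheorem.union {X : Type u} [TopologicalSpace X] (hX : FiniteSumTheorem X)
    {n : ℕ} {S T : Set X} (hS : IsClosed S) (hT : IsClosed T) (h1 : IndLT n S) (h2 : IndLT n T) :
    IndLT n (S ∪ T : Set X) := by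
  have h := hX 1 ![S, T] (by
    intro i
    fin_cases i
    · exact hS
    · exact hT)
  have hU : (⋃ i : Fin 2, (![S, T] : Fin 2 → Set X) i) = S ∪ T := by
    ext x
    simp [Fin.exists_fin_two]
  rw [← ind_lt_iff] at h1 h2 ⊢
  rw [hU] at h
  refine lt_of_le_of_lt h ?_
  rw [Finset.sup'_lt_iff]
  intro i _
  fin_cases i
  · exact h1
  · exact h2


theorem IndLT.of_subset_image {n : ℕ} {X : Type u} [TopologicalSpace X] {F : Set X} {T : Set F}
    {D : Set X} (hD : IsClosed D) (h : D ⊆ Subtype.val '' T) (hT : IndLT n T) : IndLT n D := by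
  have h1 : ∀ x ∈ D, ∃ hx : x ∈ F, (⟨x, hx⟩ : F) ∈ T := by
    intro x hx
    obtain ⟨t, ht, rfl⟩ := h hx
    exact ⟨t.2, ht⟩
  refine IndLT.of_isClosedEmbedding n
    (f := fun x : D => (⟨⟨x.1, (h1 x.1 x.2).1⟩, (h1 x.1 x.2).2⟩ : T)) ?_ hT
  exact IsClosedEmbedding.of_comp (g := fun t : T => ((t : F) : X))
    (IsEmbedding.subtypeVal.comp IsEmbedding.subtypeVal) hD.isClosedEmbedding_subtypeVal

theorem IndLT.of_image_subset {n : ℕ} {X : Type u} [TopologicalSpace X] {F : Set X}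
    (hF : IsClosed F) {T : Set F} {D : Set X} (hT : IsClosed T) (h : Subtype.val '' T ⊆ D)
    (hD : IndLT n D) : IndLT n T := by
  refine IndLT.of_isClosedEmbedding n
    (f := fun x : T => (⟨x.1.1, h ⟨x.1, x.2, rfl⟩⟩ : D)) ?_ hD
  exact IsClosedEmbedding.of_comp (g := fun t : D => (t : X)) IsEmbedding.subtypeVal
    (hF.isClosedEmbedding_subtypeVal.comp hT.isClosedEmbedding_subtypeVal)

/-- The definition of `IndLT (n + 1)` for a closed subspace, in terms of the ambient space. -/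
theorem exists_relOpen {n : ℕ} {X : Type u} [TopologicalSpace X] {F : Set X} (hF : IsClosed F)
    (h : IndLT (n + 1) F) {C U : Set X} (hC : IsClosed C) (hU : IsOpen U) (hCU : C ⊆ U) :
    ∃ G G' : Set X, IsOpen G' ∧ G = F ∩ G' ∧ F ∩ C ⊆ G ∧ closure G ⊆ U ∧
      IsClosed (closure G \ G) ∧ IndLT n (closure G \ G : Set X) := by
  obtain ⟨V, hV, hAV, hVU, hfr⟩ := h (Subtype.val ⁻¹' C) (Subtype.val ⁻¹' U)
    (hC.preimage continuous_subtype_val) (hU.preimage continuous_subtype_val) (preimage_mono hCU)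
  obtain ⟨G', hG', rfl⟩ := isOpen_induced_iff.1 hV
  have hcl : closure (F ∩ G') = Subtype.val '' closure (Subtype.val ⁻¹' G' : Set F) := by
    rw [← hF.isClosedEmbedding_subtypeVal.closure_image_eq, Subtype.image_preimage_coe]
  have hclF : closure (F ∩ G') ⊆ F := closure_minimal inter_subset_left hF
  have hD : closure (F ∩ G') \ (F ∩ G') = closure (F ∩ G') ∩ G'ᶜ := by
    ext x
    constructor
    · rintro ⟨h1, h2⟩
      exact ⟨h1, fun h3 => h2 ⟨hclF h1, h3⟩⟩
    · rintro ⟨h1, h2⟩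
      exact ⟨h1, fun h3 => h2 h3.2⟩
  have hDc : IsClosed (closure (F ∩ G') \ (F ∩ G')) := by
    rw [hD]
    exact isClosed_closure.inter hG'.isClosed_compl
  refine ⟨F ∩ G', G', hG', rfl, ?_, ?_, hDc, ?_⟩
  · rintro x ⟨hx, hxC⟩
    exact ⟨hx, @hAV ⟨x, hx⟩ hxC⟩
  · rw [hcl]
    rintro _ ⟨x, hx, rfl⟩
    exact hVU hx
  · refine IndLT.of_subset_image hDc ?_ hfr
    rintro x ⟨h1, h2⟩
    rw [hcl] at h1
    obtain ⟨t, ht, rfl⟩ := h1
    refine ⟨t, ?_, rfl⟩
    rw [hV.frontier_eq]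
    exact ⟨ht, fun h3 => h2 ⟨t.2, h3⟩⟩

/-! ### Sets covered by finitely many rectangles of small total dimension -/

section Product

variable {X Y : Type u} [TopologicalSpace X] [TopologicalSpace Y]

/-- `Cov n T`: the set `T` is contained in a finite union of closed rectangles `F a ×ˢ H a`,
`a < n`, with `Ind (F a) ≤ a` and `Ind (H a) ≤ n - 1 - a`. -/
def Cov (n : ℕ) (T : Set (X × Y)) : Prop :=
  ∃ (F : ℕ → Set X) (H : ℕ → Set Y), (∀ a, IsClosed (F a)) ∧ (∀ a, IsClosed (H a)) ∧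
    (∀ a b, a + b + 1 = n → IndLT (a + 1) (F a) ∧ IndLT (b + 1) (H a)) ∧
    ∀ z ∈ T, ∃ a, a < n ∧ z.1 ∈ F a ∧ z.2 ∈ H a

theorem Cov.mono {n : ℕ} {S T : Set (X × Y)} (hST : S ⊆ T) (h : Cov n T) : Cov n S := by
  obtain ⟨F, H, h1, h2, h3, h4⟩ := h
  exact ⟨F, H, h1, h2, h3, fun z hz => h4 z (hST hz)⟩

theorem Cov.empty (n : ℕ) : Cov n (∅ : Set (X × Y)) :=
  ⟨fun _ => ∅, fun _ => ∅, fun _ => isClosed_empty, fun _ => isClosed_empty,
    fun _ _ _ => ⟨IndLT.empty _, IndLT.empty _⟩, fun _ hz => hz.elim⟩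

theorem Cov.rect {n a b : ℕ} (hab : a + b + 1 ≤ n) {F : Set X} {H : Set Y} (hF : IsClosed F)
    (hH : IsClosed H) (hF' : IndLT (a + 1) F) (hH' : IndLT (b + 1) H) : Cov n (F ×ˢ H) := by
  classical
  refine ⟨fun i => if i = a then F else ∅, fun i => if i = a then H else ∅, ?_, ?_, ?_, ?_⟩
  · intro i
    dsimp only
    split_ifs
    · exact hF
    · exact isClosed_empty
  · intro i
    dsimp only
    split_ifs
    · exact hH
    · exact isClosed_empty
  · intro i j hij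
    beta_reduce
    by_cases h : i = a
    · subst h
      rw [if_pos rfl, if_pos rfl]
      exact ⟨hF', hH'.mono (by omega)⟩
    · rw [if_neg h, if_neg h]
      exact ⟨IndLT.empty _, IndLT.empty _⟩
  · rintro z ⟨hz1, hz2⟩
    refine ⟨a, by omega, ?_, ?_⟩
    · simpa using hz1
    · simpa using hz2

theorem Cov.union (hX : FiniteSumTheorem X) (hY : FiniteSumTheorem Y) {n : ℕ}
    {S T : Set (X × Y)} (hS : Cov n S) (hT : Cov n T) : Cov n (S ∪ T) := by
  obtain ⟨F, H, h1, h2, h3, h4⟩ := hS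
  obtain ⟨F', H', h1', h2', h3', h4'⟩ := hT
  refine ⟨fun a => F a ∪ F' a, fun a => H a ∪ H' a, fun a => (h1 a).union (h1' a),
    fun a => (h2 a).union (h2' a), ?_, ?_⟩
  · intro a b hab
    exact ⟨hX.union (h1 a) (h1' a) (h3 a b hab).1 (h3' a b hab).1,
      hY.union (h2 a) (h2' a) (h3 a b hab).2 (h3' a b hab).2⟩
  · rintro z (hz | hz)
    · obtain ⟨a, ha, hz1, hz2⟩ := h4 z hz
      exact ⟨a, ha, Or.inl hz1, Or.inl hz2⟩
    · obtain ⟨a, ha, hz1, hz2⟩ := h4' z hz
      exact ⟨a, ha, Or.inr hz1, Or.inr hz2⟩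

theorem Cov.biUnion (hX : FiniteSumTheorem X) (hY : FiniteSumTheorem Y) {n : ℕ} {ι : Type*}
    (s : Finset ι) (T : ι → Set (X × Y)) (h : ∀ i ∈ s, Cov n (T i)) :
    Cov n (⋃ i ∈ s, T i) := by
  classical
  induction s using Finset.induction_on with
  | empty => simpa using Cov.empty n
  | insert i s his ih =>
    rw [Finset.set_biUnion_insert]
    exact Cov.union hX hY (h i (Finset.mem_insert_self i s))
      (ih fun j hj => h j (Finset.mem_insert_of_mem hj))

/-- The difference of a rectangle of relatively open sets: the pieces of a closed rectangle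
outside an open subrectangle form a closed set. -/
theorem isClosed_diff_rect {F G' : Set X} {H K' : Set Y} (hF : IsClosed F) (hG' : IsOpen G')
    (hH : IsClosed H) (hK' : IsOpen K') :
    IsClosed {z : X × Y | z.1 ∈ F ∧ z.2 ∈ H ∧ ¬ (z.1 ∈ F ∩ G' ∧ z.2 ∈ H ∩ K')} := by
  have : {z : X × Y | z.1 ∈ F ∧ z.2 ∈ H ∧ ¬ (z.1 ∈ F ∩ G' ∧ z.2 ∈ H ∩ K')} =
      (F ∩ G'ᶜ) ×ˢ H ∪ F ×ˢ (H ∩ K'ᶜ) := by
    ext z
    simp only [mem_ofPred_eq, mem_inter_iff, mem_union, mem_prod, mem_compl_iff]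
    tauto
  rw [this]
  exact ((hF.inter hG'.isClosed_compl).prod hH).union (hF.prod (hH.inter hK'.isClosed_compl))

/-- Local pieces. -/
theorem exists_piece [RegularSpace X] [RegularSpace Y] (hX : FiniteSumTheorem X)
    (hY : FiniteSumTheorem Y) {m : ℕ} {S : Set (X × Y)} (hS : IsClosed S)
    (hcov : ∀ z ∈ S, ∃ O, IsOpen O ∧ z ∈ O ∧ Cov (m + 1) (S ∩ O))
    {A B : Set (X × Y)} (hA : IsClosed A) (hB : IsClosed B) (hAB : Disjoint A B) (z : X × Y) :
    ∃ W E' : Set (X × Y), IsOpen W ∧ IsOpen E' ∧ z ∈ W ∧ S ∩ W ⊆ E' ∧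
      (Disjoint (closure (S ∩ E')) A ∨ Disjoint (closure (S ∩ E')) B) ∧
      Cov m (closure (S ∩ E') \ (S ∩ E')) := by
  classical
  by_cases hzS : z ∈ S
  swap
  · refine ⟨Sᶜ, ∅, hS.isOpen_compl, isOpen_empty, hzS, by simp, by simp, ?_⟩
    simpa using Cov.empty m
  obtain ⟨O, hO, hzO, F, H, hF, hH, hFH, hc⟩ := hcov z hzS
  -- an open rectangle around `z` missing `A` or `B`
  obtain ⟨O', hO', hzO', hO'O, hO'AB⟩ : ∃ O' : Set (X × Y), IsOpen O' ∧ z ∈ O' ∧ O' ⊆ O ∧
      (Disjoint O' A ∨ Disjoint O' B) := by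
    by_cases hzA : z ∈ A
    · have hzB : z ∉ B := fun h => (hAB.le_bot ⟨hzA, h⟩ : z ∈ (∅ : Set (X × Y))).elim
      exact ⟨O ∩ Bᶜ, hO.inter hB.isOpen_compl, ⟨hzO, hzB⟩, inter_subset_left,
        Or.inr (disjoint_left.2 fun x hx => hx.2)⟩
    · exact ⟨O ∩ Aᶜ, hO.inter hA.isOpen_compl, ⟨hzO, hzA⟩, inter_subset_left,
        Or.inl (disjoint_left.2 fun x hx => hx.2)⟩
  obtain ⟨U, V, hU, hV, hzU, hzV, hUV⟩ := isOpen_prod_iff.1 hO' z.1 z.2 hzO'
  obtain ⟨C, hC, hCc, hCU⟩ := exists_mem_nhds_isClosed_subset (hU.mem_nhds hzU)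
  obtain ⟨D, hD, hDc, hDV⟩ := exists_mem_nhds_isClosed_subset (hV.mem_nhds hzV)
  -- relatively open sets in the rectangles
  have key : ∀ a : ℕ, ∃ (G' : Set X) (K' : Set Y), IsOpen G' ∧ IsOpen K' ∧
      (∀ b, a + b + 1 = m + 1 → F a ∩ C ⊆ F a ∩ G' ∧ H a ∩ D ⊆ H a ∩ K' ∧
        closure (F a ∩ G') ⊆ U ∧ closure (H a ∩ K') ⊆ V ∧
        IsClosed (closure (F a ∩ G') \ (F a ∩ G')) ∧
        IsClosed (closure (H a ∩ K') \ (H a ∩ K')) ∧
        IndLT a (closure (F a ∩ G') \ (F a ∩ G') : Set X) ∧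
        IndLT b (closure (H a ∩ K') \ (H a ∩ K') : Set Y)) := by
    intro a
    by_cases h : ∃ b, a + b + 1 = m + 1
    · obtain ⟨b, hb⟩ := h
      obtain ⟨G, G', hG', rfl, h1, h2, h3, h4⟩ := exists_relOpen (hF a) (hFH a b hb).1 hCc hU hCU
      obtain ⟨K, K', hK', rfl, k1, k2, k3, k4⟩ := exists_relOpen (hH a) (hFH a b hb).2 hDc hV hDV
      refine ⟨G', K', hG', hK', fun b' hb' => ?_⟩
      have : b' = b := by omega
      subst this
      exact ⟨h1, k1, h2, k2, h3, k3, h4, k4⟩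
    · exact ⟨univ, univ, isOpen_univ, isOpen_univ, fun b hb => (h ⟨b, hb⟩).elim⟩
  choose G' K' hG' hK' hGK using key
  -- the bad part
  let R : Finset ℕ := Finset.range (m + 1)
  let Bad : Set (X × Y) := ⋃ a ∈ R, {z : X × Y | z.1 ∈ F a ∧ z.2 ∈ H a ∧
    ¬ (z.1 ∈ F a ∩ G' a ∧ z.2 ∈ H a ∩ K' a)}
  have hBad : IsClosed Bad := isClosed_biUnion_finset fun a _ =>
    isClosed_diff_rect (hF a) (hG' a) (hH a) (hK' a)
  have hb : ∀ a ∈ R, ∃ b, a + b + 1 = m + 1 := by
    intro a ha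
    have := Finset.mem_range.1 ha
    exact ⟨m - a, by omega⟩
  have hUVo : IsOpen (U ×ˢ V) := hU.prod hV
  have hUVO' : U ×ˢ V ⊆ O' := hUV
  have hE1 : S ∩ (U ×ˢ V ∩ Badᶜ) ⊆ ⋃ a ∈ R, (F a ∩ G' a) ×ˢ (H a ∩ K' a) := by
    rintro s ⟨hsS, hsUV, hsB⟩
    obtain ⟨a, ha, h1, h2⟩ := hc s ⟨hsS, hO'O (hUVO' hsUV)⟩
    have haR : a ∈ R := Finset.mem_range.2 ha
    refine mem_iUnion₂.2 ⟨a, haR, ?_⟩
    by_contra hcon
    exact hsB (mem_iUnion₂.2 ⟨a, haR, h1, h2, fun h => hcon ⟨h.1, h.2⟩⟩)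
  have hE2 : closure (S ∩ (U ×ˢ V ∩ Badᶜ)) ⊆
      ⋃ a ∈ R, closure (F a ∩ G' a) ×ˢ closure (H a ∩ K' a) := by
    refine closure_minimal (hE1.trans ?_) ?_
    · exact iUnion₂_mono fun a _ => prod_mono subset_closure subset_closure
    · exact isClosed_biUnion_finset fun a _ => isClosed_closure.prod isClosed_closure
  have hE3 : closure (S ∩ (U ×ˢ V ∩ Badᶜ)) ⊆ U ×ˢ V := by
    intro s hs
    obtain ⟨a, ha, h1, h2⟩ := mem_iUnion₂.1 (hE2 hs)
    obtain ⟨b, hb⟩ := hb a ha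
    obtain ⟨-, -, h3, h4, -⟩ := hGK a b hb
    exact ⟨h3 h1, h4 h2⟩
  refine ⟨interior C ×ˢ interior D, U ×ˢ V ∩ Badᶜ, isOpen_interior.prod isOpen_interior,
    hUVo.inter hBad.isOpen_compl, ⟨mem_interior_iff_mem_nhds.2 hC, mem_interior_iff_mem_nhds.2 hD⟩,
    ?_, ?_, ?_⟩
  · rintro s ⟨-, hs1, hs2⟩
    have hs1' := interior_subset hs1
    have hs2' := interior_subset hs2
    refine ⟨⟨hCU hs1', hDV hs2'⟩, fun hsB => ?_⟩
    obtain ⟨a, ha, h1, h2, h3⟩ := mem_iUnion₂.1 hsB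
    obtain ⟨b, hb⟩ := hb a ha
    obtain ⟨h4, h5, -⟩ := hGK a b hb
    exact h3 ⟨h4 ⟨h1, hs1'⟩, h5 ⟨h2, hs2'⟩⟩
  · rcases hO'AB with h | h
    · exact Or.inl (h.mono_left (hE3.trans hUVO'))
    · exact Or.inr (h.mono_left (hE3.trans hUVO'))
  · -- the boundary
    have hsub : closure (S ∩ (U ×ˢ V ∩ Badᶜ)) \ (S ∩ (U ×ˢ V ∩ Badᶜ)) ⊆
        (⋃ a ∈ R, ((closure (F a ∩ G' a) \ (F a ∩ G' a)) ×ˢ closure (H a ∩ K' a) ∪
          closure (F a ∩ G' a) ×ˢ (closure (H a ∩ K' a) \ (H a ∩ K' a)))) ∪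
        ⋃ p ∈ (R ×ˢ R).filter (fun p => p.1 ≠ p.2),
          (F p.1 ∩ F p.2) ×ˢ (H p.1 ∩ H p.2) := by
      rintro s ⟨hs, hs'⟩
      have hsS : s ∈ S := closure_minimal inter_subset_left hS hs
      have hsUV := hE3 hs
      have hsB : s ∈ Bad := by
        by_contra hcon
        exact hs' ⟨hsS, hsUV, hcon⟩
      obtain ⟨a, ha, h1, h2, h3⟩ := mem_iUnion₂.1 hsB
      obtain ⟨a', ha', h1', h2'⟩ := mem_iUnion₂.1 (hE2 hs)
      by_cases haa : a = a'
      · subst haa
        left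
        refine mem_iUnion₂.2 ⟨a, ha, ?_⟩
        by_cases h4 : s.1 ∈ F a ∩ G' a
        · exact Or.inr ⟨h1', h2', fun h5 => h3 ⟨h4, h5⟩⟩
        · exact Or.inl ⟨⟨h1', h4⟩, h2'⟩
      · right
        refine mem_iUnion₂.2 ⟨(a, a'), ?_, ⟨h1, ?_⟩, h2, ?_⟩
        · rw [Finset.mem_filter, Finset.mem_product]
          exact ⟨⟨ha, ha'⟩, haa⟩
        · exact closure_minimal inter_subset_left (hF a') h1'
        · exact closure_minimal inter_subset_left (hH a') h2'
    refine Cov.mono hsub (Cov.union hX hY (Cov.biUnion hX hY _ _ fun a ha => ?_)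
      (Cov.biUnion hX hY _ _ fun p hp => ?_))
    · obtain ⟨b, hb⟩ := hb a ha
      obtain ⟨-, -, -, -, h5, h6, h7, h8⟩ := hGK a b hb
      have hF' : IndLT (a + 1) (closure (F a ∩ G' a) : Set X) :=
        IndLT.mono_set isClosed_closure (closure_minimal inter_subset_left (hF a)) (hFH a b hb).1
      have hH' : IndLT (b + 1) (closure (H a ∩ K' a) : Set Y) :=
        IndLT.mono_set isClosed_closure (closure_minimal inter_subset_left (hH a)) (hFH a b hb).2
      refine Cov.union hX hY ?_ ?_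
      · rcases a with _ | a
        · have : (closure (F 0 ∩ G' 0) \ (F 0 ∩ G' 0) : Set X) = ∅ :=
            isEmpty_coe_sort.1 (show IsEmpty _ from h7)
          rw [this, empty_prod]
          exact Cov.empty m
        · exact Cov.rect (a := a) (b := b) (by omega) h5 isClosed_closure h7 hH'
      · rcases b with _ | b
        · have : (closure (H a ∩ K' a) \ (H a ∩ K' a) : Set Y) = ∅ :=
            isEmpty_coe_sort.1 (show IsEmpty _ from h8)
          rw [this, prod_empty]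
          exact Cov.empty m
        · exact Cov.rect (a := a) (b := b) (by omega) isClosed_closure h6 hF' h8
    · rw [Finset.mem_filter, Finset.mem_product] at hp
      obtain ⟨⟨hp1, hp2⟩, hne⟩ := hp
      obtain ⟨b1, hb1⟩ := hb p.1 hp1
      obtain ⟨b2, hb2⟩ := hb p.2 hp2
      have hFc := (hF p.1).inter (hF p.2)
      have hHc := (hH p.1).inter (hH p.2)
      rcases lt_or_gt_of_ne hne with hlt | hlt
      · exact Cov.rect (a := p.1) (b := b2) (by omega) hFc hHc
          (IndLT.mono_set hFc inter_subset_left (hFH _ _ hb1).1)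
          (IndLT.mono_set hHc inter_subset_right (hFH _ _ hb2).2)
      · exact Cov.rect (a := p.2) (b := b1) (by omega) hFc hHc
          (IndLT.mono_set hFc inter_subset_right (hFH _ _ hb2).1)
          (IndLT.mono_set hHc inter_subset_left (hFH _ _ hb1).2)

/-- Gluing countably many pieces over a clopen set. -/
theorem exists_glue (hX : FiniteSumTheorem X)
    (hY : FiniteSumTheorem Y) {m : ℕ} {S A B T : Set (X × Y)}
    (hAS : A ⊆ S) (hBS : B ⊆ S) (hT : IsClopen T) (W E : ℕ → Set (X × Y))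
    (hW : ∀ i, IsOpen (W i)) (hE : ∀ i, IsOpen (E i)) (hTW : T ⊆ ⋃ i, W i)
    (hWE : ∀ i, S ∩ W i ⊆ E i)
    (hAB : ∀ i, Disjoint (closure (S ∩ E i)) A ∨ Disjoint (closure (S ∩ E i)) B)
    (hcov : ∀ i, Cov m (closure (S ∩ E i) \ (S ∩ E i))) :
    ∃ P P' : Set (X × Y), IsOpen P ∧ IsOpen P' ∧ P ⊆ T ∧ P' ⊆ T ∧ S ∩ P ∩ P' = ∅ ∧
      A ∩ T ⊆ P ∧ B ∩ T ⊆ P' ∧
      ∀ s ∈ T, ∃ O, IsOpen O ∧ s ∈ O ∧ O ⊆ T ∧ Cov m ((S \ (P ∪ P')) ∩ O) := by
  classical
  let b : ℕ → Prop := fun i => Disjoint (closure (S ∩ E i)) B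
  have hb' : ∀ i, ¬ b i → Disjoint (closure (S ∩ E i)) A := fun i hi => (hAB i).resolve_right hi
  let Q : Prop → ℕ → Set (X × Y) := fun q i => E i \ ⋃ j ∈ (Finset.range i).filter (fun j => ¬ (b j ↔ q)),
    closure (S ∩ E j)
  have hQ : ∀ q i, IsOpen (Q q i) := fun q i =>
    (hE i).sdiff (isClosed_biUnion_finset fun j _ => isClosed_closure)
  have hmemQ : ∀ (q : Prop) (i : ℕ) (s : X × Y), s ∈ Q q i ↔
      s ∈ E i ∧ ∀ j < i, ¬ (b j ↔ q) → s ∉ closure (S ∩ E j) := by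
    intro q i s
    simp only [Q, mem_sdiff, mem_iUnion, Finset.mem_filter, Finset.mem_range, exists_prop, not_exists,
      not_and, and_imp]
  let P : Prop → Set (X × Y) := fun q => T ∩ ⋃ (i : ℕ) (_ : b i ↔ q), Q q i
  have hP : ∀ q, IsOpen (P q) := fun q =>
    hT.isOpen.inter (isOpen_iUnion fun i => isOpen_iUnion fun _ => hQ q i)
  have hmemP : ∀ (q : Prop) (s : X × Y), s ∈ P q ↔ s ∈ T ∧ ∃ i, (b i ↔ q) ∧ s ∈ Q q i := by
    intro q s
    simp only [P, mem_inter_iff, mem_iUnion, exists_prop]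
  refine ⟨P True, P False, hP _, hP _, inter_subset_left, inter_subset_left, ?_, ?_, ?_, ?_⟩
  · rw [eq_empty_iff_forall_notMem]
    rintro s ⟨⟨hsS, h1⟩, h2⟩
    obtain ⟨-, i, hi, h1⟩ := (hmemP _ _).1 h1
    obtain ⟨-, j, hj, h2⟩ := (hmemP _ _).1 h2
    obtain ⟨h1, h1'⟩ := (hmemQ _ _ _).1 h1
    obtain ⟨h2, h2'⟩ := (hmemQ _ _ _).1 h2
    have hbi : b i := by tauto
    have hbj : ¬ b j := by tauto
    rcases lt_trichotomy i j with h | h | h
    · exact h2' i h (by tauto) (subset_closure ⟨hsS, h1⟩)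
    · subst h
      exact hbj hbi
    · exact h1' j h (by tauto) (subset_closure ⟨hsS, h2⟩)
  · rintro s ⟨hsA, hsT⟩
    obtain ⟨i, hi⟩ := mem_iUnion.1 (hTW hsT)
    have hsE : s ∈ E i := hWE i ⟨hAS hsA, hi⟩
    have hbi : b i := by
      by_contra hcon
      exact disjoint_left.1 (hb' i hcon) (subset_closure ⟨hAS hsA, hsE⟩) hsA
    refine (hmemP _ _).2 ⟨hsT, i, by tauto, (hmemQ _ _ _).2 ⟨hsE, fun j _ hj hs => ?_⟩⟩
    exact disjoint_left.1 (hb' j (by tauto)) hs hsA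
  · rintro s ⟨hsB, hsT⟩
    obtain ⟨i, hi⟩ := mem_iUnion.1 (hTW hsT)
    have hsE : s ∈ E i := hWE i ⟨hBS hsB, hi⟩
    have hbi : ¬ b i := by
      intro hcon
      exact disjoint_left.1 hcon (subset_closure ⟨hBS hsB, hsE⟩) hsB
    refine (hmemP _ _).2 ⟨hsT, i, by tauto, (hmemQ _ _ _).2 ⟨hsE, fun j _ hj hs => ?_⟩⟩
    have hbj : b j := by tauto
    exact disjoint_left.1 hbj hs hsB
  · intro s hsT
    obtain ⟨i, hi⟩ := mem_iUnion.1 (hTW hsT)
    refine ⟨T ∩ W i, hT.isOpen.inter (hW i), ⟨hsT, hi⟩, inter_subset_left, ?_⟩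
    refine Cov.mono ?_ (Cov.biUnion hX hY (Finset.range i)
      (fun j => closure (S ∩ E j) \ (S ∩ E j)) fun j _ => hcov j)
    rintro t ⟨⟨htS, htP⟩, htT, htW⟩
    have hex : ∃ j, t ∈ E j := ⟨i, hWE i ⟨htS, htW⟩⟩
    have hj := Nat.find_spec hex
    have hji : Nat.find hex ≤ i := Nat.find_min' hex (hWE i ⟨htS, htW⟩)
    have hnot : ¬ t ∈ Q (b (Nat.find hex)) (Nat.find hex) := by
      intro h
      apply htP
      rw [hmemQ] at h
      by_cases hb : b (Nat.find hex)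
      · left
        refine (hmemP _ _).2 ⟨htT, Nat.find hex, iff_true_intro hb, (hmemQ _ _ _).2 ⟨h.1, ?_⟩⟩
        exact fun j hj hj' => h.2 j hj fun h' => hj' (h'.trans (iff_true_intro hb))
      · right
        refine (hmemP _ _).2 ⟨htT, Nat.find hex, iff_false_intro hb, (hmemQ _ _ _).2 ⟨h.1, ?_⟩⟩
        exact fun j hj hj' => h.2 j hj fun h' => hj' (h'.trans (iff_false_intro hb))
    rw [hmemQ] at hnot
    push Not at hnot
    obtain ⟨j, hj1, hj2, hj3⟩ := hnot hj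
    refine mem_iUnion₂.2 ⟨j, Finset.mem_range.2 (lt_of_lt_of_le hj1 hji), hj3, fun h => ?_⟩
    exact Nat.find_min hex hj1 h.2

end Product

/-! ### Decomposition of strongly paracompact spaces -/

/-- For every open cover of a strongly paracompact space there is a partition into clopen sets
each of which is covered by countably many members of the cover. -/
theorem StronglyParacompact.exists_partition {Z : Type u} [TopologicalSpace Z]
    (hZ : StronglyParacompact Z) (W : Z → Set Z) (hW : ∀ z, IsOpen (W z)) (hzW : ∀ z, z ∈ W z) :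
    ∃ (Q : Type u) (T : Q → Set Z) (c : Q → ℕ → Z), (∀ q, IsClopen (T q)) ∧
      (∀ z, ∃ q, z ∈ T q) ∧ (∀ q q' z, z ∈ T q → z ∈ T q' → q = q') ∧
      ∀ q, T q ⊆ ⋃ i, W (c q i) := by
  classical
  obtain ⟨𝒱, h𝒱, hcov, href, hfin⟩ := hZ (range W) (by rintro _ ⟨z, rfl⟩; exact hW z) (by
    rw [eq_univ_iff_forall]
    exact fun z => ⟨W z, ⟨z, rfl⟩, hzW z⟩)
  let r : Z → Z → Prop := fun a b => ∃ v ∈ 𝒱, a ∈ v ∧ b ∈ v
  have hcov' : ∀ z, ∃ v ∈ 𝒱, z ∈ v := by
    intro z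
    have : z ∈ ⋃₀ 𝒱 := by rw [hcov]; trivial
    exact this
  let st : Setoid Z := Relation.EqvGen.setoid r
  have hopen : ∀ q : Quotient st, IsOpen {z : Z | (Quotient.mk st z) = q} := by
    intro q
    rw [isOpen_iff_forall_mem_open]
    intro z hz
    obtain ⟨v, hv, hzv⟩ := hcov' z
    refine ⟨v, ?_, h𝒱 v hv, hzv⟩
    intro z' hz'
    have h1 : (Quotient.mk st z') = Quotient.mk st z :=
      Quotient.sound (Relation.EqvGen.rel _ _ ⟨v, hv, hz', hzv⟩)
    exact h1.trans hz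
  have hclopen : ∀ q : Quotient st, IsClopen {z : Z | (Quotient.mk st z) = q} := by
    intro q
    refine ⟨?_, hopen q⟩
    rw [← isOpen_compl_iff]
    have : {z : Z | (Quotient.mk st z) = q}ᶜ = ⋃ (q' : Quotient st) (_ : q' ≠ q),
        {z : Z | (Quotient.mk st z) = q'} := by
      ext z
      simp
    rw [this]
    exact isOpen_iUnion fun q' => isOpen_iUnion fun _ => hopen q'
  have hcount : ∀ q : Quotient st, ∃ c : ℕ → Z,
      {z : Z | (Quotient.mk st z) = q} ⊆ ⋃ i, W (c i) := by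
    intro q
    obtain ⟨z0, rfl⟩ := Quotient.exists_rep q
    obtain ⟨v0, hv0, hz0⟩ := hcov' z0
    let B : ℕ → Set (Set Z) := fun n => Nat.rec {v0} (fun _ C => ⋃ v ∈ C, {w ∈ 𝒱 | (v ∩ w).Nonempty}) n
    have hB0 : B 0 = {v0} := rfl
    have hBs : ∀ n, B (n + 1) = ⋃ v ∈ B n, {w ∈ 𝒱 | (v ∩ w).Nonempty} := fun n => rfl
    have hB : ∀ n, (B n).Finite ∧ B n ⊆ 𝒱 := by
      intro n
      induction n with
      | zero =>
        rw [hB0]
        exact ⟨finite_singleton _, singleton_subset_iff.2 hv0⟩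
      | succ n ih =>
        rw [hBs]
        refine ⟨ih.1.biUnion fun v hv => hfin v (ih.2 hv), ?_⟩
        exact iUnion₂_subset fun v _ => fun w hw => hw.1
    have hBc : (⋃ n, B n).Countable := countable_iUnion fun n => (hB n).1.countable
    obtain ⟨e, he⟩ := hBc.exists_eq_range ⟨v0, mem_iUnion.2 ⟨0, by rw [hB0]; rfl⟩⟩
    have hstep : ∀ a b : Z, r a b → (∃ n, ∃ v ∈ B n, a ∈ v) → ∃ n, ∃ v ∈ B n, b ∈ v := by
      rintro a b ⟨w, hw, haw, hbw⟩ ⟨n, v, hv, hav⟩
      refine ⟨n + 1, w, ?_, hbw⟩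
      rw [hBs]
      exact mem_iUnion₂.2 ⟨v, hv, hw, a, hav, haw⟩
    have hsym : ∀ a b : Z, r a b → r b a := fun a b ⟨v, hv, h1, h2⟩ => ⟨v, hv, h2, h1⟩
    have hgen : ∀ a b : Z, Relation.EqvGen r a b →
        ((∃ n, ∃ v ∈ B n, a ∈ v) ↔ ∃ n, ∃ v ∈ B n, b ∈ v) := by
      intro a b hab
      induction hab with
      | rel a b h => exact ⟨hstep a b h, hstep b a (hsym a b h)⟩
      | refl a => exact Iff.rfl
      | symm a b _ ih => exact ih.symm
      | trans a b c _ _ ih1 ih2 => exact ih1.trans ih2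
    have hrep : ∀ i, ∃ z : Z, e i ⊆ W z := by
      intro i
      have h1 : e i ∈ ⋃ n, B n := by rw [he]; exact ⟨i, rfl⟩
      obtain ⟨n, hn⟩ := mem_iUnion.1 h1
      obtain ⟨_, ⟨z, rfl⟩, hz⟩ := href (e i) ((hB n).2 hn)
      exact ⟨z, hz⟩
    choose c hc using hrep
    refine ⟨c, fun z hz => ?_⟩
    have h1 : Relation.EqvGen r z z0 := Quotient.exact (show Quotient.mk st z = Quotient.mk st z0 from hz)
    obtain ⟨n, v, hv, hzv⟩ := (hgen z z0 h1).2 ⟨0, v0, by rw [hB0]; rfl, hz0⟩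
    have h2 : v ∈ range e := by rw [← he]; exact mem_iUnion.2 ⟨n, hv⟩
    obtain ⟨i, rfl⟩ := h2
    exact mem_iUnion.2 ⟨i, hc i hzv⟩
  choose c hc using hcount
  exact ⟨Quotient st, fun q => {z | Quotient.mk st z = q}, c, hclopen, fun z => ⟨_, rfl⟩,
    fun q q' z h h' => h.symm.trans h', hc⟩

/-! ### The main induction -/

section Main

variable {X Y : Type u} [TopologicalSpace X] [TopologicalSpace Y]

theorem indLT_of_locCov [RegularSpace X] [RegularSpace Y] (hX : FiniteSumTheorem X)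
    (hY : FiniteSumTheorem Y) (hsp : StronglyParacompact (X × Y)) (n : ℕ) :
    ∀ S : Set (X × Y), IsClosed S → (∀ z ∈ S, ∃ O, IsOpen O ∧ z ∈ O ∧ Cov n (S ∩ O)) →
      IndLT n S := by
  induction n with
  | zero =>
    intro S _ hcov
    refine ⟨fun z => ?_⟩
    obtain ⟨O, -, hzO, F, H, -, -, -, hc⟩ := hcov z z.2
    obtain ⟨a, ha, -⟩ := hc z ⟨z.2, hzO⟩
    exact absurd ha (Nat.not_lt_zero a)
  | succ m ih =>
    intro S hS hcov A₀ U₀ hA₀ hU₀ hAU₀
    have hemb := hS.isClosedEmbedding_subtypeVal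
    have hA : IsClosed (Subtype.val '' A₀ : Set (X × Y)) := hemb.isClosedMap A₀ hA₀
    have hB : IsClosed (Subtype.val '' U₀ᶜ : Set (X × Y)) :=
      hemb.isClosedMap _ hU₀.isClosed_compl
    have hAB : Disjoint (Subtype.val '' A₀ : Set (X × Y)) (Subtype.val '' U₀ᶜ) :=
      (disjoint_image_iff Subtype.val_injective).2
        (disjoint_left.2 fun x hx hx' => hx' (hAU₀ hx))
    have hpiece := exists_piece hX hY hS hcov hA hB hAB
    choose W E hW hE hzW hWE hdis hbd using hpiece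
    obtain ⟨Q, T, c, hT, hTcov, hTdis, hTW⟩ := hsp.exists_partition W hW hzW
    have hglue := fun q => exists_glue (m := m) hX hY
      (A := Subtype.val '' A₀) (B := Subtype.val '' U₀ᶜ)
      (by rintro _ ⟨x, -, rfl⟩; exact x.2) (by rintro _ ⟨x, -, rfl⟩; exact x.2) (hT q)
      (fun i => W (c q i)) (fun i => E (c q i)) (fun i => hW _) (fun i => hE _) (hTW q)
      (fun i => hWE _) (fun i => hdis _) (fun i => hbd _)
    choose P P' hP hP' hPT hP'T hdisj hAP hBP' hloc using hglue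
    let L : Set (X × Y) := S \ ((⋃ q, P q) ∪ ⋃ q, P' q)
    have hL : IsClosed L := hS.sdiff ((isOpen_iUnion hP).union (isOpen_iUnion hP'))
    have hLloc : ∀ z ∈ L, ∃ O, IsOpen O ∧ z ∈ O ∧ Cov m (L ∩ O) := by
      intro z _
      obtain ⟨q, hq⟩ := hTcov z
      obtain ⟨O, hO, hzO, hOT, hc⟩ := hloc q z hq
      refine ⟨O, hO, hzO, Cov.mono ?_ hc⟩
      rintro t ⟨⟨htS, ht⟩, htO⟩
      refine ⟨⟨htS, fun h => ht ?_⟩, htO⟩
      rcases h with h | h
      · exact Or.inl (mem_iUnion.2 ⟨q, h⟩)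
      · exact Or.inr (mem_iUnion.2 ⟨q, h⟩)
    have hLind := ih L hL hLloc
    have hPo : IsOpen (⋃ q, P q) := isOpen_iUnion hP
    have hPo' : IsOpen (⋃ q, P' q) := isOpen_iUnion hP'
    have hVV' : ∀ x : S, x.1 ∈ ⋃ q, P q → x.1 ∈ (⋃ q, P' q) → False := by
      intro x h1 h2
      obtain ⟨q, h1⟩ := mem_iUnion.1 h1
      obtain ⟨q', h2⟩ := mem_iUnion.1 h2
      have hqq : q = q' := hTdis q q' x (hPT q h1) (hP'T q' h2)
      subst hqq
      have h3 : x.1 ∈ S ∩ P q ∩ P' q := ⟨⟨x.2, h1⟩, h2⟩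
      rw [hdisj q] at h3
      exact h3
    have hVo : IsOpen (Subtype.val ⁻¹' (⋃ q, P q) : Set S) := hPo.preimage continuous_subtype_val
    have hVo' : IsOpen (Subtype.val ⁻¹' (⋃ q, P' q) : Set S) :=
      hPo'.preimage continuous_subtype_val
    have hcl : closure (Subtype.val ⁻¹' (⋃ q, P q) : Set S) ⊆
        (Subtype.val ⁻¹' (⋃ q, P' q))ᶜ :=
      closure_minimal (fun x h1 h2 => hVV' x h1 h2) hVo'.isClosed_compl
    refine ⟨Subtype.val ⁻¹' (⋃ q, P q), hVo, ?_, ?_, ?_⟩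
    · intro x hx
      obtain ⟨q, hq⟩ := hTcov x.1
      exact mem_iUnion.2 ⟨q, hAP q ⟨⟨x, hx, rfl⟩, hq⟩⟩
    · intro x hx
      by_contra hxU
      obtain ⟨q, hq⟩ := hTcov x.1
      exact hcl hx (mem_iUnion.2 ⟨q, hBP' q ⟨⟨x, hxU, rfl⟩, hq⟩⟩)
    · refine IndLT.of_image_subset hS isClosed_frontier ?_ hLind
      rintro _ ⟨x, hx, rfl⟩
      rw [hVo.frontier_eq] at hx
      refine ⟨x.2, fun h => ?_⟩
      rcases h with h | h
      · exact hx.2 h
      · exact hcl hx.1 h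

theorem ind_le_iff (n : ℕ) (X : Type u) [TopologicalSpace X] :
    Ind X ≤ (((n : ℤ) - 1 : ℤ) : WithTop ℤ) ↔ IndLT n X := by
  classical
  unfold Ind
  by_cases h : ∃ k : ℕ, IndLT k X
  · rw [dif_pos h, WithTop.coe_le_coe]
    constructor
    · intro hle
      exact IndLT.mono (by omega) (Nat.find_spec h)
    · intro hn
      have := Nat.find_min' h hn
      omega
  · rw [dif_neg h]
    constructor
    · intro hle
      exact absurd (top_le_iff.1 hle) (WithTop.coe_ne_top)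
    · intro hn
      exact absurd ⟨n, hn⟩ h

theorem ind_of_isEmpty (X : Type u) [TopologicalSpace X] [h : IsEmpty X] :
    Ind X = ((-1 : ℤ) : WithTop ℤ) := by
  classical
  have h0 : IndLT 0 X := h
  have hex : ∃ k : ℕ, IndLT k X := ⟨0, h0⟩
  unfold Ind
  rw [dif_pos hex]
  have h1 : Nat.find hex = 0 := Nat.le_zero.1 (Nat.find_min' hex h0)
  rw [h1]
  norm_num

theorem ind_nonneg (X : Type u) [TopologicalSpace X] [h : Nonempty X] :
    ((0 : ℤ) : WithTop ℤ) ≤ Ind X := by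
  rw [← not_lt]
  intro h1
  have h2 : IndLT 0 X := (ind_lt_iff 0 X).1 (by simpa using h1)
  exact h2.false h.some

theorem ind_prod_univ [RegularSpace X] [RegularSpace Y] (hX : FiniteSumTheorem X)
    (hY : FiniteSumTheorem Y) (hsp : StronglyParacompact (X × Y)) {a b : ℕ}
    (ha : IndLT (a + 1) X) (hb : IndLT (b + 1) Y) : IndLT (a + b + 1) (X × Y) := by
  have h1 : IndLT (a + 1) (univ : Set X) :=
    IndLT.of_isClosedEmbedding _ (Homeomorph.Set.univ X).isClosedEmbedding ha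
  have h2 : IndLT (b + 1) (univ : Set Y) :=
    IndLT.of_isClosedEmbedding _ (Homeomorph.Set.univ Y).isClosedEmbedding hb
  have h3 : IndLT (a + b + 1) (univ : Set (X × Y)) := by
    refine indLT_of_locCov hX hY hsp _ univ isClosed_univ fun z _ => ?_
    refine ⟨univ, isOpen_univ, mem_univ z, Cov.mono (subset_univ _) ?_⟩
    rw [← univ_prod_univ]
    exact Cov.rect le_rfl isClosed_univ isClosed_univ h1 h2
  exact IndLT.of_isClosedEmbedding _ (Homeomorph.Set.univ (X × Y)).symm.isClosedEmbedding h3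

/-- **Theorem.** Let `X` and `Y` be spaces, at least one of them nonempty, such that `X × Y` is
Hausdorff, normal and strongly paracompact and both `X` and `Y` satisfy the finite sum theorem for
`Ind`. Then `Ind (X × Y) ≤ Ind X + Ind Y`. -/
theorem result (X Y : Type u) [TopologicalSpace X] [TopologicalSpace Y]
    (hne : Nonempty X ∨ Nonempty Y) (hT2 : T2Space (X × Y)) (hnormal : NormalSpace (X × Y))
    (hsp : StronglyParacompact (X × Y)) (hX : FiniteSumTheorem X) (hY : FiniteSumTheorem Y) :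
    Ind (X × Y) ≤ Ind X + Ind Y := by
  classical
  by_cases hXe : Nonempty X
  swap
  · have h1 : IsEmpty X := not_nonempty_iff.1 hXe
    have h2 : Nonempty Y := hne.resolve_left hXe
    have h3 := ind_nonneg Y
    rw [ind_of_isEmpty X, ind_of_isEmpty (X × Y)]
    calc ((-1 : ℤ) : WithTop ℤ) = ((-1 : ℤ) : WithTop ℤ) + ((0 : ℤ) : WithTop ℤ) := by
          rw [← WithTop.coe_add]; norm_num
      _ ≤ ((-1 : ℤ) : WithTop ℤ) + Ind Y := add_le_add_right h3 _
  by_cases hYe : Nonempty Y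
  swap
  · have h1 : IsEmpty Y := not_nonempty_iff.1 hYe
    have h3 := ind_nonneg X
    rw [ind_of_isEmpty Y, ind_of_isEmpty (X × Y)]
    calc ((-1 : ℤ) : WithTop ℤ) = ((0 : ℤ) : WithTop ℤ) + ((-1 : ℤ) : WithTop ℤ) := by
          rw [← WithTop.coe_add]; norm_num
      _ ≤ Ind X + ((-1 : ℤ) : WithTop ℤ) := add_le_add_left h3 _
  obtain ⟨x0⟩ := hXe
  obtain ⟨y0⟩ := hYe
  have hT4 : T4Space (X × Y) := ⟨⟩
  have hRX : RegularSpace X := (isEmbedding_prodMkLeft y0).isInducing.regularSpace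
  have hRY : RegularSpace Y := (isEmbedding_prodMkRight x0).isInducing.regularSpace
  by_cases h1 : ∃ k, IndLT k X
  swap
  · have : Ind X = ⊤ := by
      unfold Ind
      rw [dif_neg h1]
    rw [this, WithTop.top_add]
    exact le_top
  by_cases h2 : ∃ l, IndLT l Y
  swap
  · have : Ind Y = ⊤ := by
      unfold Ind
      rw [dif_neg h2]
    rw [this, WithTop.add_top]
    exact le_top
  have hk := Nat.find_spec h1
  have hl := Nat.find_spec h2
  have eX : Ind X = ((((Nat.find h1 : ℕ) : ℤ) - 1 : ℤ) : WithTop ℤ) := by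
    unfold Ind
    rw [dif_pos h1]
  have eY : Ind Y = ((((Nat.find h2 : ℕ) : ℤ) - 1 : ℤ) : WithTop ℤ) := by
    unfold Ind
    rw [dif_pos h2]
  obtain ⟨a, ha⟩ : ∃ a, Nat.find h1 = a + 1 := by
    rcases hn : Nat.find h1 with _ | a
    · rw [hn] at hk
      exact ((show IsEmpty X from hk).false x0).elim
    · exact ⟨a, rfl⟩
  obtain ⟨b, hb⟩ : ∃ b, Nat.find h2 = b + 1 := by
    rcases hn : Nat.find h2 with _ | b
    · rw [hn] at hl
      exact ((show IsEmpty Y from hl).false y0).elim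
    · exact ⟨b, rfl⟩
  rw [ha] at hk
  rw [hb] at hl
  have hXY := (ind_le_iff (a + b + 1) (X × Y)).2 (ind_prod_univ hX hY hsp hk hl)
  rw [eX, eY, ha, hb, ← WithTop.coe_add]
  refine hXY.trans (WithTop.coe_le_coe.2 ?_)
  push_cast
  omega

end Main

end Pool.Agent.Results.MP_bd525c_gt.IndProductSP
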